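import Pool.Agent.H81.SQ.Check

/-!
# Colourings of the positive integers which avoid the ratios `n ^ 2 + 1`
-/

set_option autoImplicit false

namespace Pool.Agent.H81.SQ

/-- the ratio `p / q` is avoided (after multiplication by some `M`) -/
def Av {r : ℕ} (χ : ℕ → Fin r) (p q : ℕ) : Prop :=
  0 < p ∧ 0 < q ∧ ∃ M, 0 < M ∧ ∀ y, 0 < y → χ (M * y * q) ≠ χ (M * y * p)

/-- the hypothesis: no solutions -/
def NoSol {r : ℕ} (χ : ℕ → Fin r) : Prop :=
  ∀ n y, 0 < n → 0 < y → χ ((n * n + 1) * y) ≠ χ y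

/-- one factor for a list -/
theorem uni {r : ℕ} {χ : ℕ → Fin r} : ∀ L : List (ℕ × ℕ), (∀ a ∈ L, Av χ a.1 a.2) →
    ∃ K, 0 < K ∧ ∀ a ∈ L, ∀ k x y z, 0 < k → 0 < x → 0 < z → y * a.2 = x * a.1 →
      χ (K * k * z * x) ≠ χ (K * k * z * y) := by
  intro L
  induction L with
  | nil => intro _; exact ⟨1, one_pos, fun a ha => by cases ha⟩
  | cons b L ih =>
    intro h
    obtain ⟨K, hK, h1⟩ := ih fun a ha => h a (List.mem_cons_of_mem _ ha)
    obtain ⟨hp, hq, M, hM, h2⟩ := h b List.mem_cons_self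
    refine ⟨K * (M * b.2), by positivity, fun a ha k x y z hk hx hz he => ?_⟩
    rcases List.mem_cons.1 ha with h3 | h3
    · subst h3
      have h4 := h2 (K * k * z * x) (by positivity)
      have e1 : M * (K * k * z * x) * a.2 = K * (M * a.2) * k * z * x := by ring
      have e2 : M * (K * k * z * x) * a.1 = K * (M * a.2) * k * z * y := by
        calc M * (K * k * z * x) * a.1 = M * (K * k * z) * (x * a.1) := by ring
          _ = M * (K * k * z) * (y * a.2) := by rw [he]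
          _ = _ := by ring
      rw [e1, e2] at h4
      exact h4
    · have h4 := h1 a h3 (M * b.2 * k) x y z (by positivity) hx hz he
      have e1 : K * (M * b.2 * k) * z * x = K * (M * b.2) * k * z * x := by ring
      have e2 : K * (M * b.2 * k) * z * y = K * (M * b.2) * k * z * y := by ring
      rw [e1, e2] at h4
      exact h4

theorem gen_cases (L : List (ℕ × ℕ)) (a : ℕ) (ha : 2 ≤ a) :
    (∃ n, 0 < n ∧ gen L a = (n * n + 1, 1)) ∨ gen L a ∈ L := by
  unfold gen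
  cases Nat.beq (a % 2) 0
  · rw [cond_false]
    by_cases h : a / 2 < L.length
    · right
      rw [List.getD_eq_getElem _ _ h]
      exact List.getElem_mem h
    · left
      refine ⟨1, one_pos, ?_⟩
      rw [List.getD_eq_default _ _ (not_lt.1 h)]
  · rw [cond_true]
    exact Or.inl ⟨a / 2, by omega, rfl⟩

theorem rl_ne {r : ℕ} {χ : ℕ → Fin r} (hS : NoSol χ) {L : List (ℕ × ℕ)} {K : ℕ} (hK0 : 0 < K)
    (hK : ∀ a ∈ L, ∀ k x y z, 0 < k → 0 < x → 0 < z → y * a.2 = x * a.1 →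
      χ (K * k * z * x) ≠ χ (K * k * z * y)) {x y z : ℕ} (hx : 0 < x) (hy : 0 < y) (hz : 0 < z)
    (h : Rl L x y) : χ (K * z * x) ≠ χ (K * z * y) := by
  have key : ∀ x y, 0 < x → 0 < y → (∃ a, 2 ≤ a ∧ y * (gen L a).2 = x * (gen L a).1) →
      χ (K * z * x) ≠ χ (K * z * y) := by
    rintro x y hx hy ⟨a, ha, h1⟩
    rcases gen_cases L a ha with ⟨n, hn, h2⟩ | h2
    · rw [h2] at h1
      have h3 := hS n (K * z * x) hn (by positivity)
      have e1 : (n * n + 1) * (K * z * x) = K * z * y := by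
        have h4 : y = x * (n * n + 1) := by simpa using h1
        rw [h4]
        ring
      rw [e1] at h3
      exact h3.symm
    · have h3 := hK _ h2 1 x y z one_pos hx hz h1
      rwa [mul_one] at h3
  obtain ⟨a, ha, h1 | h1⟩ := h
  · exact key x y hx hy ⟨a, ha, h1⟩
  · exact (key y x hy hx ⟨a, ha, h1⟩).symm

/-- a permutation which maps four different colours to `0, 1, 2, 3` -/
theorem exists_perm {r : ℕ} (hr : 4 ≤ r) (g : Fin 4 → Fin r) (hg : Function.Injective g) :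
    ∃ σ : Equiv.Perm (Fin r), ∀ i : Fin 4, (σ (g i)).val = i.val := by
  classical
  have hh : Function.Injective (Fin.castLE hr) := Fin.castLE_injective hr
  let e : {x // x ∈ Set.range g} ≃ {x // x ∈ Set.range (Fin.castLE hr)} :=
    (Equiv.ofInjective g hg).symm.trans (Equiv.ofInjective _ hh)
  refine ⟨e.extendSubtype, fun i => ?_⟩
  rw [Equiv.extendSubtype_apply_of_mem e (g i) ⟨i, rfl⟩]
  have h1 : (Equiv.ofInjective g hg).symm ⟨g i, ⟨i, rfl⟩⟩ = i := by
    rw [Equiv.symm_apply_eq]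
    rfl
  show ((Equiv.ofInjective (Fin.castLE hr) hh ((Equiv.ofInjective g hg).symm ⟨g i, ⟨i, rfl⟩⟩)) :
    Fin r).val = i.val
  rw [h1]
  rfl

/-- positive entries -/
def posn (V : BT) : ℕ → Bool
  | 0 => true
  | i + 1 => Nat.ble 1 (V.get i) && posn V i

theorem posn_sound {V : BT} : ∀ n, posn V n = true → ∀ i < n, 0 < V.get i := by
  intro n
  induction n with
  | zero => intro _ i hi; omega
  | succ n ih =>
    intro h i hi
    unfold posn at h
    rw [Bool.and_eq_true] at h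
    rcases Nat.lt_succ_iff_lt_or_eq.1 hi with h1 | h1
    · exact ih h.2 i h1
    · subst h1
      exact Nat.le_of_ble_eq_true h.1

/-- the four colours of `1, 5, 10, 50` are different -/
theorem clique {r : ℕ} {χ : ℕ → Fin r} (hS : NoSol χ) {b : ℕ} (hb : 0 < b) :
    Function.Injective (![χ b, χ (5 * b), χ (10 * b), χ (50 * b)] : Fin 4 → Fin r) := by
  have h1 : χ (5 * b) ≠ χ b := hS 2 b (by norm_num) hb
  have h2 : χ (10 * b) ≠ χ b := hS 3 b (by norm_num) hb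
  have h3 : χ (50 * b) ≠ χ b := hS 7 b (by norm_num) hb
  have h4 : χ (10 * b) ≠ χ (5 * b) := by
    have := hS 1 (5 * b) (by norm_num) (by positivity)
    rwa [show (1 * 1 + 1) * (5 * b) = 10 * b by ring] at this
  have h5 : χ (50 * b) ≠ χ (5 * b) := by
    have := hS 3 (5 * b) (by norm_num) (by positivity)
    rwa [show (3 * 3 + 1) * (5 * b) = 50 * b by ring] at this
  have h6 : χ (50 * b) ≠ χ (10 * b) := by
    have := hS 2 (10 * b) (by norm_num) (by positivity)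
    rwa [show (2 * 2 + 1) * (10 * b) = 50 * b by ring] at this
  intro i j hij
  fin_cases i <;> fin_cases j <;> simp_all [eq_comm]

theorem core {r : ℕ} (hr : 4 ≤ r) {χ : ℕ → Fin r} (hS : NoSol χ) {L : List (ℕ × ℕ)}
    {K : ℕ} (hK0 : 0 < K)
    (hK : ∀ a ∈ L, ∀ k x y z, 0 < k → 0 < x → 0 < z → y * a.2 = x * a.1 →
      χ (K * k * z * x) ≠ χ (K * k * z * y)) {n : ℕ} {V G nb S : BT}
    {pre : List (ℕ × ℕ)} {k s : ℕ} (hc : chk n r L V G nb S pre k s = true)
    (hp : posn V n = true) {z b : ℕ} (hz : 0 < z) (hb : 0 < b)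
    (hpre : ∀ p ∈ pre, p.1 < n ∧ ((p.2 = 0 ∧ χ (K * z * V.get p.1) = χ (K * z * b)) ∨
      (p.2 = 1 ∧ V.get p.1 = 5 * b) ∨ (p.2 = 2 ∧ V.get p.1 = 10 * b) ∨
      (p.2 = 3 ∧ V.get p.1 = 50 * b))) : False := by
  have hcl := clique hS (b := K * z * b) (by positivity)
  obtain ⟨σ, hσ⟩ := exists_perm hr _ hcl
  have h0 : (σ (χ (K * z * b))).val = 0 := hσ 0
  have h1 : (σ (χ (5 * (K * z * b)))).val = 1 := hσ 1
  have h2 : (σ (χ (10 * (K * z * b)))).val = 2 := hσ 2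
  have h3 : (σ (χ (50 * (K * z * b)))).val = 3 := hσ 3
  refine chk_sound hc (fun i => (σ (χ (K * z * V.get i))).val) (fun i _ => (σ _).isLt)
    (fun i hi j hj h => ?_) (fun p hpm => ?_)
  · have h4 := rl_ne hS hK0 hK (posn_sound n hp i hi) (posn_sound n hp j hj) hz h
    intro h5
    exact h4 (σ.injective (Fin.ext h5))
  · obtain ⟨h4, h5⟩ := hpre p hpm
    refine ⟨h4, ?_⟩
    rcases h5 with ⟨h6, h7⟩ | ⟨h6, h7⟩ | ⟨h6, h7⟩ | ⟨h6, h7⟩
    · show (σ (χ (K * z * V.get p.1))).val = p.2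
      rw [h7, h6, h0]
    · show (σ (χ (K * z * V.get p.1))).val = p.2
      rw [h7, h6, ← h1]
      congr 3
      ring
    · show (σ (χ (K * z * V.get p.1))).val = p.2
      rw [h7, h6, ← h2]
      congr 3
      ring
    · show (σ (χ (K * z * V.get p.1))).val = p.2
      rw [h7, h6, ← h3]
      congr 3
      ring

/-- A stage: the ratio `u / v` is avoided. -/
theorem stage {r : ℕ} (hr : 4 ≤ r) {χ : ℕ → Fin r} (hS : NoSol χ) {L : List (ℕ × ℕ)}
    (hL : ∀ a ∈ L, Av χ a.1 a.2) {n : ℕ} {V G nb S : BT} {k s : ℕ} (i0 i1 i2 i3 it b bt : ℕ)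
    (hc : chk n r L V G nb S [(i0, 0), (i1, 1), (i2, 2), (i3, 3), (it, 0)] k s = true)
    (hp : posn V n = true) (hb : 0 < b) (hbt : 0 < bt)
    (hV : (i0 < n ∧ i1 < n ∧ i2 < n ∧ i3 < n ∧ it < n) ∧ V.get i0 = b ∧ V.get i1 = 5 * b ∧
      V.get i2 = 10 * b ∧ V.get i3 = 50 * b ∧ V.get it = bt) (u v : ℕ) (hu : 0 < u) (hv : 0 < v)
    (huv : bt * v = b * u) : Av χ u v := by
  obtain ⟨K, hK0, hK⟩ := uni L hL
  obtain ⟨⟨n0, n1, n2, n3, nt⟩, e0, e1, e2, e3, et⟩ := hV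
  refine ⟨hu, hv, K * b * v, by positivity, fun y hy he => ?_⟩
  -- `K b v y v` and `K b v y u`: use `z = y * v * v`, as `bt v = b u`
  refine core hr hS hK0 hK hc hp (z := y * v * v) (b := b) (by positivity) hb ?_
  intro p hpm
  simp only [List.mem_cons, List.not_mem_nil, or_false] at hpm
  rcases hpm with h | h | h | h | h
  · subst h
    exact ⟨n0, Or.inl ⟨rfl, by rw [e0]⟩⟩
  · subst h
    exact ⟨n1, Or.inr (Or.inl ⟨rfl, e1⟩)⟩
  · subst h
    exact ⟨n2, Or.inr (Or.inr (Or.inl ⟨rfl, e2⟩))⟩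
  · subst h
    exact ⟨n3, Or.inr (Or.inr (Or.inr ⟨rfl, e3⟩))⟩
  · subst h
    refine ⟨nt, Or.inl ⟨rfl, ?_⟩⟩
    show χ (K * (y * v * v) * V.get it) = χ (K * (y * v * v) * b)
    rw [et]
    have x1 : K * (y * v * v) * b = K * b * v * y * v := by ring
    have x2 : K * (y * v * v) * bt = K * b * v * y * u := by
      calc K * (y * v * v) * bt = K * y * v * (bt * v) := by ring
        _ = K * y * v * (b * u) := by rw [huv]
        _ = _ := by ring
    rw [x1, x2]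
    exact he.symm

/-- The last stage. -/
theorem last {r : ℕ} (hr : 4 ≤ r) {χ : ℕ → Fin r} (hS : NoSol χ) {L : List (ℕ × ℕ)}
    (hL : ∀ a ∈ L, Av χ a.1 a.2) {n : ℕ} {V G nb S : BT} {k s : ℕ} (i0 i1 i2 i3 b : ℕ)
    (hc : chk n r L V G nb S [(i0, 0), (i1, 1), (i2, 2), (i3, 3)] k s = true)
    (hp : posn V n = true) (hb : 0 < b)
    (hV : (i0 < n ∧ i1 < n ∧ i2 < n ∧ i3 < n) ∧ V.get i0 = b ∧ V.get i1 = 5 * b ∧
      V.get i2 = 10 * b ∧ V.get i3 = 50 * b) : False := by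
  obtain ⟨K, hK0, hK⟩ := uni L hL
  obtain ⟨⟨n0, n1, n2, n3⟩, e0, e1, e2, e3⟩ := hV
  refine core hr hS hK0 hK hc hp (z := 1) (b := b) one_pos hb ?_
  intro p hpm
  simp only [List.mem_cons, List.not_mem_nil, or_false] at hpm
  rcases hpm with h | h | h | h
  · subst h
    exact ⟨n0, Or.inl ⟨rfl, by rw [e0]⟩⟩
  · subst h
    exact ⟨n1, Or.inr (Or.inl ⟨rfl, e1⟩)⟩
  · subst h
    exact ⟨n2, Or.inr (Or.inr (Or.inl ⟨rfl, e2⟩))⟩
  · subst h
    exact ⟨n3, Or.inr (Or.inr (Or.inr ⟨rfl, e3⟩))⟩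

/-- the dummy entry of the lists -/
theorem av21 {r : ℕ} {χ : ℕ → Fin r} (hS : NoSol χ) : Av χ 2 1 := by
  refine ⟨by norm_num, one_pos, 1, one_pos, fun y hy h => ?_⟩
  have := hS 1 y one_pos hy
  refine this ?_
  rw [show (1 * 1 + 1) * y = 1 * y * 2 by ring, ← h]
  congr 1
  ring

end Pool.Agent.H81.SQ
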