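import Mathlib

/-!
# A checker for refutations of colourings of finite graphs (evaluated by the kernel)

The graph has the vertices `0, ..., n - 1`; `f i < r` is the colour of the vertex `i`.  A state is a
natural number whose bit `c * n + i` says that the vertex `i` may have the colour `c`.
-/

set_option autoImplicit false

namespace Pool.Agent.H81.SQ

/-- remove from `a` the bits of `m` -/
def rm (a m : ℕ) : ℕ := a ^^^ (a &&& m)

theorem testBit_rm (a m k : ℕ) : (rm a m).testBit k = (a.testBit k && !m.testBit k) := by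
  unfold rm
  rw [Nat.testBit_xor, Nat.testBit_and]
  cases a.testBit k <;> cases m.testBit k <;> rfl

/-- the bit `k` of `a` -/
def bt (a k : ℕ) : Bool := Nat.beq ((a >>> k) &&& 1) 1

theorem bt_eq (a k : ℕ) : bt a k = a.testBit k := by
  unfold bt
  rw [Nat.and_comm]
  have h : a.testBit k = (1 &&& (a >>> k) != 0) := rfl
  rw [h, Nat.one_and_eq_mod_two]
  have h2 : (a >>> k) % 2 < 2 := Nat.mod_lt _ (by norm_num)
  rcases Nat.lt_succ_iff_lt_or_eq.1 h2 with h3 | h3
  · have h4 : (a >>> k) % 2 = 0 := by omega
    rw [h4]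
    rfl
  · rw [h3]
    rfl

/-- binary trees -/
inductive BT where
  | l (m : ℕ)
  | n (a b : BT)

/-- the entry with index `i` -/
def BT.get : BT → ℕ → ℕ
  | .l m, _ => m
  | .n a b, i => bif Nat.beq (i % 2) 0 then a.get (i / 2) else b.get (i / 2)

/-- the new states -/
def push (n m a v : ℕ) : ℕ → List ℕ → List ℕ
  | 0, w => w
  | c + 1, w => push n m a v c (bif bt a (c * n + v) then rm a (m <<< (c * n)) :: w else w)

/-- refute all states of the list; `s` is the stream of the vertices -/
def run (n r : ℕ) (nb : BT) : ℕ → List ℕ → ℕ → Bool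
  | _, [], _ => true
  | 0, _ :: _, _ => false
  | k + 1, a :: w, s =>
    Nat.blt (s % 1024) n && run n r nb k (push n (nb.get (s % 1024)) a (s % 1024) r w) (s / 1024)

theorem mem_push_of_mem {n m a v x : ℕ} : ∀ (r : ℕ) (w : List ℕ), x ∈ w → x ∈ push n m a v r w := by
  intro r
  induction r with
  | zero => intro w hx; exact hx
  | succ c ih =>
    intro w hx
    unfold push
    refine ih _ ?_
    cases bt a (c * n + v)
    · exact hx
    · exact List.mem_cons_of_mem _ hx

theorem mem_push {n m a v : ℕ} : ∀ (r : ℕ) (w : List ℕ) (c : ℕ), c < r →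
    a.testBit (c * n + v) = true → rm a (m <<< (c * n)) ∈ push n m a v r w := by
  intro r
  induction r with
  | zero => intro w c hc; omega
  | succ d ih =>
    intro w c hc hb
    unfold push
    rcases Nat.lt_succ_iff_lt_or_eq.1 hc with h | h
    · exact ih _ c h hb
    · subst h
      refine mem_push_of_mem _ _ ?_
      rw [bt_eq, hb]
      exact List.mem_cons_self

/-- the colouring is compatible with the state -/
def Cmp (n : ℕ) (f : ℕ → ℕ) (a : ℕ) : Prop := ∀ i < n, a.testBit (f i * n + i) = true

theorem run_sound {n r : ℕ} {nb : BT} {f : ℕ → ℕ} (hf : ∀ i < n, f i < r)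
    (hE : ∀ v < n, ∀ j, (nb.get v).testBit j = true → j < n ∧ f v ≠ f j) :
    ∀ (k : ℕ) (w : List ℕ) (s : ℕ), run n r nb k w s = true → ∀ a ∈ w, ¬ Cmp n f a := by
  intro k
  induction k with
  | zero =>
    intro w s h
    cases w with
    | nil => intro a ha; cases ha
    | cons b w => exact absurd h (by simp [run])
  | succ k ih =>
    intro w s h
    cases w with
    | nil => intro a ha; cases ha
    | cons b w =>
      unfold run at h
      rw [Bool.and_eq_true] at h
      obtain ⟨h1, h2⟩ := h
      have hv : s % 1024 < n := by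
        have := h1
        rw [Nat.blt_eq] at this
        exact this
      intro a ha
      rcases List.mem_cons.1 ha with h3 | h3
      · subst h3
        intro hc
        have h4 := ih _ _ h2 _ (mem_push r w (f (s % 1024)) (hf _ hv) (hc _ hv))
        refine h4 fun i hi => ?_
        rw [testBit_rm, hc i hi, Bool.true_and, Bool.not_eq_true']
        by_contra hcon
        rw [Bool.not_eq_false, Nat.testBit_shiftLeft, Bool.and_eq_true] at hcon
        obtain ⟨h5, h6⟩ := hcon
        have h5' : f (s % 1024) * n ≤ f i * n + i := by simpa using h5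
        obtain ⟨h7, h8⟩ := hE _ hv _ h6
        have h9 : f (s % 1024) = f i := by
          by_contra hne
          rcases Nat.lt_or_gt_of_ne hne with hlt | hgt
          · have : f (s % 1024) * n + n ≤ f i * n := by
              have := Nat.mul_le_mul_right n (Nat.succ_le_of_lt hlt)
              rw [Nat.succ_mul] at this
              exact this
            omega
          · have : f i * n + n ≤ f (s % 1024) * n := by
              have := Nat.mul_le_mul_right n (Nat.succ_le_of_lt hgt)
              rw [Nat.succ_mul] at this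
              exact this
            omega
        refine h8 ?_
        rw [h9]
        congr 1
        rw [← h9]
        omega
      · exact ih _ _ h2 a (mem_push_of_mem r w h3)

/-! ### The edges -/

/-- the generators: `n ^ 2 + 1` or an entry of the list -/
def gen (L : List (ℕ × ℕ)) (a : ℕ) : ℕ × ℕ :=
  bif Nat.beq (a % 2) 0 then ((a / 2) * (a / 2) + 1, 1) else L.getD (a / 2) (2, 1)

/-- is `x / y` the ratio `p / q`? -/
def rel (pq : ℕ × ℕ) (x y : ℕ) : Bool := Nat.beq (x * pq.2) (y * pq.1)

/-- check one edge: `d` is the direction, `g` the index of the generator -/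
def edg (L : List (ℕ × ℕ)) (G : BT) (x y d g : ℕ) : Bool :=
  Nat.ble 2 (G.get g) && (bif Nat.beq d 0 then rel (gen L (G.get g)) y x
    else rel (gen L (G.get g)) x y)

/-- the edges at one vertex; the stream has 18 bits per edge -/
def edv (n : ℕ) (L : List (ℕ × ℕ)) (V G : BT) (x : ℕ) : ℕ → ℕ → ℕ → Bool
  | 0, m, _ => Nat.beq m 0
  | k + 1, m, s => Nat.beq m 0 || (Nat.blt (s % 1024) n &&
      edg L G x (V.get (s % 1024)) ((s / 1024) % 2) ((s / 2048) % 128) &&
      edv n L V G x k (rm m (1 <<< (s % 1024))) (s / 262144))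

/-- all vertices `< i`; `S` are the streams -/
def edgs (n : ℕ) (L : List (ℕ × ℕ)) (V G nb S : BT) : ℕ → Bool
  | 0 => true
  | i + 1 => edv n L V G (V.get i) n (nb.get i) (S.get i) && edgs n L V G nb S i

/-- the ratio of two vertices -/
def Rl (L : List (ℕ × ℕ)) (x y : ℕ) : Prop :=
  ∃ a, 2 ≤ a ∧ (y * (gen L a).2 = x * (gen L a).1 ∨ x * (gen L a).2 = y * (gen L a).1)

theorem edg_sound {L : List (ℕ × ℕ)} {G : BT} {x y d g : ℕ} (h : edg L G x y d g = true) :
    Rl L x y := by
  unfold edg at h
  rw [Bool.and_eq_true] at h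
  refine ⟨G.get g, Nat.le_of_ble_eq_true h.1, ?_⟩
  have h2 := h.2
  cases hd : Nat.beq d 0
  · rw [hd, cond_false] at h2
    exact Or.inr (Nat.eq_of_beq_eq_true h2)
  · rw [hd, cond_true] at h2
    exact Or.inl (Nat.eq_of_beq_eq_true h2)

theorem edv_sound {n : ℕ} {L : List (ℕ × ℕ)} {V G : BT} {x : ℕ} : ∀ (k m s : ℕ),
    edv n L V G x k m s = true → ∀ j, m.testBit j = true → j < n ∧ Rl L x (V.get j) := by
  intro k
  induction k with
  | zero =>
    intro m s h j hj
    unfold edv at h
    rw [Nat.eq_of_beq_eq_true h] at hj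
    simp at hj
  | succ k ih =>
    intro m s h j hj
    unfold edv at h
    rw [Bool.or_eq_true] at h
    rcases h with h | h
    · rw [Nat.eq_of_beq_eq_true h] at hj
      simp at hj
    · rw [Bool.and_eq_true, Bool.and_eq_true] at h
      obtain ⟨⟨h1, h2⟩, h3⟩ := h
      by_cases hjs : j = s % 1024
      · subst hjs
        refine ⟨?_, edg_sound h2⟩
        rw [Nat.blt_eq] at h1
        exact h1
      · refine ih _ _ h3 j ?_
        rw [testBit_rm, hj, Bool.true_and, Bool.not_eq_true', Nat.testBit_shiftLeft]
        by_contra hcon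
        rw [Bool.not_eq_false, Bool.and_eq_true] at hcon
        obtain ⟨h4, h5⟩ := hcon
        have h4' : s % 1024 ≤ j := by simpa using h4
        have h6 : j - s % 1024 = 0 := Nat.testBit_one_eq_true_iff_self_eq_zero.1 h5
        omega

theorem edgs_sound {n : ℕ} {L : List (ℕ × ℕ)} {V G nb S : BT} : ∀ (i : ℕ),
    edgs n L V G nb S i = true → ∀ v < i, ∀ j, (nb.get v).testBit j = true →
      j < n ∧ Rl L (V.get v) (V.get j) := by
  intro i
  induction i with
  | zero => intro _ v hv; omega
  | succ i ih =>
    intro h v hv j hj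
    unfold edgs at h
    rw [Bool.and_eq_true] at h
    rcases Nat.lt_succ_iff_lt_or_eq.1 hv with h1 | h1
    · exact ih h.2 v h1 j hj
    · subst h1
      exact edv_sound _ _ _ h.1 j hj

/-! ### The first state -/

/-- forbid the colours `< r` different from `c` at the vertex `a` -/
def fx (n a c : ℕ) : ℕ → ℕ → ℕ
  | 0, x => x
  | d + 1, x => fx n a c d (bif Nat.beq d c then x else rm x (1 <<< (d * n + a)))

/-- the first state -/
def ini (n r : ℕ) : List (ℕ × ℕ) → ℕ
  | [] => 2 ^ (n * r) - 1
  | p :: l => fx n p.1 p.2 r (ini n r l)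

theorem fx_sound {n a c : ℕ} {f : ℕ → ℕ} (ha : a < n) (hc : f a = c) : ∀ (d x : ℕ),
    Cmp n f x → Cmp n f (fx n a c d x) := by
  intro d
  induction d with
  | zero => intro x hx; exact hx
  | succ d ih =>
    intro x hx
    unfold fx
    refine ih _ ?_
    cases hd : Nat.beq d c
    · rw [cond_false]
      intro i hi
      rw [testBit_rm, hx i hi, Bool.true_and, Bool.not_eq_true', Nat.testBit_shiftLeft]
      by_contra hcon
      rw [Bool.not_eq_false, Bool.and_eq_true] at hcon
      obtain ⟨h4, h5⟩ := hcon
      have h4' : d * n + a ≤ f i * n + i := by simpa using h4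
      have h6 : f i * n + i - (d * n + a) = 0 := Nat.testBit_one_eq_true_iff_self_eq_zero.1 h5
      have h7 : f i * n + i = d * n + a := by omega
      have h8 : f i = d := by
        by_contra hne
        rcases Nat.lt_or_gt_of_ne hne with hlt | hgt
        · have : f i * n + n ≤ d * n := by
            have := Nat.mul_le_mul_right n (Nat.succ_le_of_lt hlt)
            rw [Nat.succ_mul] at this
            exact this
          omega
        · have : d * n + n ≤ f i * n := by
            have := Nat.mul_le_mul_right n (Nat.succ_le_of_lt hgt)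
            rw [Nat.succ_mul] at this
            exact this
          omega
      have h9 : i = a := by rw [h8] at h7; omega
      rw [h9, hc] at h8
      rw [← h8] at hd
      have := Nat.beq_refl c
      rw [this] at hd
      cases hd
    · exact hx

theorem ini_sound {n r : ℕ} {f : ℕ → ℕ} (hf : ∀ i < n, f i < r) : ∀ l : List (ℕ × ℕ),
    (∀ p ∈ l, p.1 < n ∧ f p.1 = p.2) → Cmp n f (ini n r l) := by
  intro l
  induction l with
  | nil =>
    intro _ i hi
    unfold ini
    rw [Nat.testBit_two_pow_sub_one]
    have h1 := hf i hi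
    have h2 := Nat.mul_le_mul_right n (Nat.succ_le_of_lt h1)
    rw [Nat.succ_mul] at h2
    have h3 : r * n = n * r := Nat.mul_comm r n
    have : f i * n + i < n * r := by omega
    simpa using this
  | cons p l ih =>
    intro h
    unfold ini
    have h1 := h p List.mem_cons_self
    exact fx_sound h1.1 h1.2 r _ (ih fun q hq => h q (List.mem_cons_of_mem _ hq))

/-- The whole check. -/
def chk (n r : ℕ) (L : List (ℕ × ℕ)) (V G nb S : BT) (pre : List (ℕ × ℕ)) (k s : ℕ) : Bool :=
  edgs n L V G nb S n && run n r nb k [ini n r pre] s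

theorem chk_sound {n r : ℕ} {L : List (ℕ × ℕ)} {V G nb S : BT} {pre : List (ℕ × ℕ)} {k s : ℕ}
    (h : chk n r L V G nb S pre k s = true) (f : ℕ → ℕ) (hf : ∀ i < n, f i < r)
    (hR : ∀ i < n, ∀ j < n, Rl L (V.get i) (V.get j) → f i ≠ f j)
    (hpre : ∀ p ∈ pre, p.1 < n ∧ f p.1 = p.2) : False := by
  unfold chk at h
  rw [Bool.and_eq_true] at h
  refine run_sound hf (fun v hv j hj => ?_) k _ s h.2 _ List.mem_cons_self (ini_sound hf pre hpre)
  obtain ⟨h1, h2⟩ := edgs_sound n h.1 v hv j hj
  exact ⟨h1, hR v hv j h1 h2⟩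

end Pool.Agent.H81.SQ
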