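import Pool.Agent.H81.SQ.A1
import Pool.Agent.H81.SQ.A2
import Pool.Agent.H81.SQ.A3
import Pool.Agent.H81.SQ.A4
import Pool.Agent.H81.SQ.A5
import Pool.Agent.H81.SQ.A6
import Pool.Agent.H81.SQ.A7
import Pool.Agent.H81.SQ.A8
import Pool.Agent.H81.SQ.A9
import Pool.Agent.H81.SQ.A10
import Pool.Agent.H81.SQ.A11
import Pool.Agent.H81.SQ.A12
import Pool.Agent.H81.SQ.AF

/-!
# Five colours are not enough to avoid the ratios `n ^ 2 + 1`
-/

set_option autoImplicit false

namespace Pool.Agent.H81.SQ

theorem no_five {χ : ℕ → Fin 5} (hS : NoSol χ) : False := by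
  have h0 : Av χ 2 1 := av21 hS
  have h1 : Av χ 17 5 := by
    refine A1.res hS ?_
    intro a ha
    simp only [A1.L, List.mem_cons, List.not_mem_nil, or_false] at ha
    subst ha
    exact h0
  have h2 : Av χ 1 13 := by
    refine A2.res hS ?_
    intro a ha
    simp only [A2.L, List.mem_cons, List.not_mem_nil, or_false] at ha
    rcases ha with rfl | rfl
    exacts [h0, h1]
  have h3 : Av χ 1 25 := by
    refine A3.res hS ?_
    intro a ha
    simp only [A3.L, List.mem_cons, List.not_mem_nil, or_false] at ha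
    rcases ha with rfl | rfl | rfl
    exacts [h0, h1, h2]
  have h4 : Av χ 17 25 := by
    refine A4.res hS ?_
    intro a ha
    simp only [A4.L, List.mem_cons, List.not_mem_nil, or_false] at ha
    rcases ha with rfl | rfl | rfl | rfl
    exacts [h0, h1, h2, h3]
  have h5 : Av χ 2 17 := by
    refine A5.res hS ?_
    intro a ha
    simp only [A5.L, List.mem_cons, List.not_mem_nil, or_false] at ha
    rcases ha with rfl | rfl | rfl | rfl | rfl
    exacts [h0, h1, h2, h3, h4]
  have h6 : Av χ 85 2 := by
    refine A6.res hS ?_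
    intro a ha
    simp only [A6.L, List.mem_cons, List.not_mem_nil, or_false] at ha
    rcases ha with rfl | rfl | rfl | rfl | rfl | rfl
    exacts [h0, h1, h2, h3, h4, h5]
  have h7 : Av χ 26 5 := by
    refine A7.res hS ?_
    intro a ha
    simp only [A7.L, List.mem_cons, List.not_mem_nil, or_false] at ha
    rcases ha with rfl | rfl | rfl | rfl | rfl | rfl | rfl
    exacts [h0, h1, h2, h3, h4, h5, h6]
  have h8 : Av χ 205 1 := by
    refine A8.res hS ?_
    intro a ha
    simp only [A8.L, List.mem_cons, List.not_mem_nil, or_false] at ha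
    rcases ha with rfl | rfl | rfl | rfl | rfl | rfl | rfl | rfl
    exacts [h0, h1, h2, h3, h4, h5, h6, h7]
  have h9 : Av χ 85 26 := by
    refine A9.res hS ?_
    intro a ha
    simp only [A9.L, List.mem_cons, List.not_mem_nil, or_false] at ha
    rcases ha with rfl | rfl | rfl | rfl | rfl | rfl | rfl | rfl | rfl
    exacts [h0, h1, h2, h3, h4, h5, h6, h7, h8]
  have h10 : Av χ 1 1105 := by
    refine A10.res hS ?_
    intro a ha
    simp only [A10.L, List.mem_cons, List.not_mem_nil, or_false] at ha
    rcases ha with rfl | rfl | rfl | rfl | rfl | rfl | rfl | rfl | rfl | rfl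
    exacts [h0, h1, h2, h3, h4, h5, h6, h7, h8, h9]
  have h11 : Av χ 130 1 := by
    refine A11.res hS ?_
    intro a ha
    simp only [A11.L, List.mem_cons, List.not_mem_nil, or_false] at ha
    rcases ha with rfl | rfl | rfl | rfl | rfl | rfl | rfl | rfl | rfl | rfl | rfl
    exacts [h0, h1, h2, h3, h4, h5, h6, h7, h8, h9, h10]
  have h12 : Av χ 410 1 := by
    refine A12.res hS ?_
    intro a ha
    simp only [A12.L, List.mem_cons, List.not_mem_nil, or_false] at ha
    rcases ha with rfl | rfl | rfl | rfl | rfl | rfl | rfl | rfl | rfl | rfl | rfl | rfl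
    exacts [h0, h1, h2, h3, h4, h5, h6, h7, h8, h9, h10, h11]
  refine AF.res hS ?_
  intro a ha
  simp only [AF.L, List.mem_cons, List.not_mem_nil, or_false] at ha
  rcases ha with rfl | rfl | rfl | rfl | rfl | rfl | rfl | rfl | rfl | rfl | rfl | rfl | rfl
  exacts [h0, h1, h2, h3, h4, h5, h6, h7, h8, h9, h10, h11, h12]

end Pool.Agent.H81.SQ
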